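import Pool.Agent.Hhelper28.Core.Quant

open MeasureTheory Set Filter Topology Metric

namespace Pool.Agent.Results.MP_9ab776_an.GlobalConcentration

open Pool.Agent.Results.MP_9ab776_an

variable {N : ℕ}

/-- the energy share of the ball `B_δ(y)` -/
noncomputable def shareE (u : E N → ℝ) (g : E N → E N) (y : Fin N → ℤ) (δ : ℝ) : ℝ :=
  (∫ x in ball (latt y) δ, (‖g x‖^2 + (u x)^2)) / normSq u g

/-- the `L^p` share of the ball `B_δ(y)` -/
noncomputable def shareP (p : ℝ) (u : E N → ℝ) (y : Fin N → ℤ) (δ : ℝ) : ℝ :=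
  (∫ x in ball (latt y) δ, |u x|^p) / ∫ x, |u x|^p

lemma shareE_le_one {u : E N → ℝ} {g : E N → E N} (h : IsH1 u g) (y : Fin N → ℤ) (δ : ℝ) : shareE u g y δ ≤ 1 := by
  unfold shareE
  apply div_le_one_of_le₀ _ (normSq_nonneg u g)
  exact setIntegral_le_integral h.integrable (Eventually.of_forall fun x => by positivity)

lemma shareP_le_one {p : ℝ} {u : E N → ℝ} (h : Integrable (fun x => |u x|^p)) (y : Fin N → ℤ) (δ : ℝ) : 
    shareP p u y δ ≤ 1 := by
  unfold shareP
  apply div_le_one_of_le₀ _ (integral_nonneg fun x => by positivity)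
  exact setIntegral_le_integral h (Eventually.of_forall fun x => by positivity)

lemma shareE_mono {u : E N → ℝ} {g : E N → E N} (h : IsH1 u g) (y : Fin N → ℤ) {δ δ' : ℝ} (hd : δ ≤ δ') : 
    shareE u g y δ ≤ shareE u g y δ' := by
  unfold shareE
  refine div_le_div_of_nonneg_right ?_ (normSq_nonneg u g)
  exact setIntegral_mono_set h.integrable.integrableOn (Eventually.of_forall fun x => by positivity) 
    (ball_subset_ball hd).eventuallyLE

lemma shareE_unique {u : E N → ℝ} {g : E N → E N} (h : IsH1 u g) (h0 : 0 < normSq u g) {y z : Fin N → ℤ} 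
    (hy : 1/2 < shareE u g y (1/2)) (hz : 1/2 < shareE u g z (1/2)) : y = z := by
  by_contra hne
  unfold shareE at hy hz
  rw [lt_div_iff₀ h0] at hy hz
  have hdis : Disjoint (ball (latt y : E N) (1/2)) (ball (latt z) (1/2)) := cell_disjoint hne
  have h1 := setIntegral_union (μ := volume) hdis measurableSet_ball h.integrable.integrableOn h.integrable.integrableOn
  have h2 := setIntegral_le_integral (s := ball (latt y : E N) (1/2) ∪ ball (latt z) (1/2)) h.integrable (Eventually.of_forall fun x => by positivity)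
  rw [h1] at h2
  unfold normSq at hy hz
  linarith

lemma translate_set (f : E N → ℝ) (a : E N) (δ : ℝ) : ∫ x in ball 0 δ, f (x + a) = ∫ x in ball a δ, f x := by
  rw [← integral_indicator measurableSet_ball, ← integral_indicator measurableSet_ball, 
    ← integral_add_right_eq_self ((ball a δ).indicator f) a]
  congr 1
  funext x
  by_cases hx : x ∈ ball (0 : E N) δ
  · rw [indicator_of_mem hx, indicator_of_mem]
    rw [mem_ball_iff_norm] at hx ⊢
    simpa using hx
  · rw [indicator_of_notMem hx, indicator_of_notMem]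
    rw [mem_ball_iff_norm] at hx ⊢
    simpa using hx

/-- **Global concentration for a periodic self-focusing core.** Let `N ≥ 2` and `2 < p < 2^*`
(i.e. `(N - 2) p < 2 N`). If `ε_n ∈ (0, 1/2)`, `ε_n → 0`, and `u_n` is a least energy solution of
`-Δu + u = Q_{ε_n} |u|^{p-2} u` (no sign condition is needed), then there are `y_n ∈ ℤ^N` such that
for every `δ ∈ (0, 1/2)` the share of the `H¹`-energy and the share of the `L^p`-mass of
`u_n (· + y_n)` carried by the ball `B_δ(0)` tend to `1`. -/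
theorem result {N : ℕ} (hN : 2 ≤ N) {p : ℝ} (hp : 2 < p) (hp' : ((N : ℝ) - 2) * p < 2 * N)
    (ε : ℕ → ℝ) (hε : ∀ n, ε n ∈ Ioo (0 : ℝ) (1 / 2)) (hlim : Tendsto ε atTop (𝓝 0))
    (u : ℕ → E N → ℝ) (g : ℕ → E N → E N)
    (hu : ∀ n, IsLeastEnergySolution p (ε n) (u n) (g n)) :
    ∃ y : ℕ → Fin N → ℤ, ∀ δ ∈ Ioo (0 : ℝ) (1 / 2),
      Tendsto (fun n =>
        (∫ x in ball 0 δ, (‖g n (x + latt (y n))‖ ^ 2 + (u n (x + latt (y n))) ^ 2)) /
          ∫ x, (‖g n (x + latt (y n))‖ ^ 2 + (u n (x + latt (y n))) ^ 2)) atTop (𝓝 1) ∧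
      Tendsto (fun n =>
        (∫ x in ball 0 δ, |u n (x + latt (y n))| ^ p) /
          ∫ x, |u n (x + latt (y n))| ^ p) atTop (𝓝 1) := by
  classical
  have hH : ∀ n, IsH1 (u n) (g n) := fun n => (hu n).1.1
  have hpos : ∀ n, 0 < normSq (u n) (g n) := fun n => normSq_pos (hH n) (hu n).2.1.2.1
  set y : ℕ → Fin N → ℤ := fun n => if h : ∃ y : Fin N → ℤ, 1/2 < shareE (u n) (g n) y (1/2) then h.choose else 0 with hy
  have hyu : ∀ n (z : Fin N → ℤ), 1/2 < shareE (u n) (g n) z (1/2) → y n = z := by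
    intro n z hz
    have hex : ∃ y : Fin N → ℤ, 1/2 < shareE (u n) (g n) y (1/2) := ⟨z, hz⟩
    have h1 : y n = hex.choose := by rw [hy]; beta_reduce; rw [dif_pos hex]
    rw [h1]
    exact shareE_unique (hH n) (hpos n) hex.choose_spec hz
  have hkey : ∀ δ ∈ Ioo (0 : ℝ) (1 / 2), ∀ τ < (1:ℝ), ∀ᶠ n in atTop, 
      τ < shareE (u n) (g n) (y n) δ ∧ τ < shareP p (u n) (y n) δ := by
    intro δ hδ τ hτ
    obtain ⟨ε0, hε0, hq⟩ := quantitative hN hp hp' hδ.1 hδ.2 (τ := max τ (1/2)) 
      (le_trans (by norm_num) (le_max_right _ _)) (max_lt hτ (by norm_num))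
    filter_upwards [hlim.eventually (gt_mem_nhds hε0)] with n hn
    obtain ⟨z, hz1, hz2⟩ := hq (ε n) (hε n).1 hn (u n) (g n) (hu n)
    have hz1' : max τ (1/2) < shareE (u n) (g n) z δ := hz1
    have hz2' : max τ (1/2) < shareP p (u n) z δ := hz2
    have h3 : 1/2 < shareE (u n) (g n) z (1/2) := 
      ((le_max_right _ _).trans_lt hz1').trans_le (shareE_mono (hH n) z hδ.2.le)
    rw [hyu n z h3]
    exact ⟨(le_max_left _ _).trans_lt hz1', (le_max_left _ _).trans_lt hz2'⟩
  refine ⟨y, fun δ hδ => ⟨?_, ?_⟩⟩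
  · have e : ∀ n, (∫ x in ball 0 δ, (‖g n (x + latt (y n))‖ ^ 2 + (u n (x + latt (y n))) ^ 2)) /
          ∫ x, (‖g n (x + latt (y n))‖ ^ 2 + (u n (x + latt (y n))) ^ 2) = shareE (u n) (g n) (y n) δ := by
      intro n
      unfold shareE normSq
      rw [translate_set (fun x => ‖g n x‖^2 + (u n x)^2) (latt (y n)) δ, 
        integral_add_right_eq_self (fun x => ‖g n x‖^2 + (u n x)^2) (latt (y n))]
    simp only [e]
    refine tendsto_order.2 ⟨fun τ hτ => (hkey δ hδ τ hτ).mono fun n hn => hn.1, fun τ hτ => ?_⟩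
    exact Eventually.of_forall fun n => (shareE_le_one (hH n) _ _).trans_lt hτ
  · have e : ∀ n, (∫ x in ball 0 δ, |u n (x + latt (y n))| ^ p) /
          ∫ x, |u n (x + latt (y n))| ^ p = shareP p (u n) (y n) δ := by
      intro n
      unfold shareP
      rw [translate_set (fun x => |u n x| ^ p) (latt (y n)) δ, 
        integral_add_right_eq_self (fun x => |u n x| ^ p) (latt (y n))]
    simp only [e]
    refine tendsto_order.2 ⟨fun τ hτ => (hkey δ hδ τ hτ).mono fun n hn => hn.2, fun τ hτ => ?_⟩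
    exact Eventually.of_forall fun n => (shareP_le_one (integrable_pow (hu n)) _ _).trans_lt hτ

end Pool.Agent.Results.MP_9ab776_an.GlobalConcentration
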